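import Pool.Agent.H25.MZ.Targets
import Pool.Agent.H25.DL.CL
import Pool.Agent.H11.DL.LE

/-!
# MZ, module CL3: long windows without exceptional points are clean with one root of unity
-/

set_option autoImplicit false

open Complex MeasureTheory Set Filter Topology Metric

namespace Pool.Agent.H34.MZ

open Pool.Agent.H25.DL Pool.Agent.H25.HK Pool.Agent.H25.MZ

/-- a continuous function on an interval with constant non-zero `m`-th power quotient is constant -/
lemma root_const {m : ℕ} (hm : 1 ≤ m) {a b : ℝ} (hab : a ≤ b) {p q : ℝ → ℂ}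
    (hp : ContinuousOn p (Icc a b)) (hq : ContinuousOn q (Icc a b))
    (h0 : ∀ t ∈ Icc a b, q t ≠ 0) (h : ∀ t ∈ Icc a b, p t ^ m = q t ^ m) :
    ∃ w : ℂ, w ^ m = 1 ∧ ∀ t ∈ Icc a b, p t = w * q t := by
  have hc : ContinuousOn (fun t => p t / q t) (Icc a b) := hp.div hq h0
  have hfin : {z : ℂ | z ^ m = 1}.Finite := by
    have h1 : {z : ℂ | z ^ m = 1} ⊆ ((Polynomial.nthRoots m (1 : ℂ)).toFinset : Set ℂ) := by
      intro z hz
      rw [Finset.mem_coe, Multiset.mem_toFinset, Polynomial.mem_nthRoots (by omega)]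
      exact hz
    exact (Finset.finite_toSet _).subset h1
  have hmt : MapsTo (fun t => p t / q t) (Icc a b) {z : ℂ | z ^ m = 1} := by
    intro t ht
    show (p t / q t) ^ m = 1
    rw [div_pow, h t ht, div_self (pow_ne_zero m (h0 t ht))]
  have ha : a ∈ Icc a b := ⟨le_rfl, hab⟩
  refine ⟨p a / q a, hmt ha, fun t ht => ?_⟩
  have h1 := isPreconnected_Icc.constant_of_mapsTo hfin.isDiscrete hc hmt ht ha
  have h2 : p t / q t = p a / q a := h1
  rw [← h2, div_mul_cancel₀ _ (h0 t ht)]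

lemma le_of_pow_le {m : ℕ} (hm : 1 ≤ m) {x y : ℝ} (hy : 1 ≤ y) (h : x ^ m ≤ y) :
    x ≤ y := by
  rcases le_total x 1 with h1 | h1
  · exact h1.trans hy
  · exact (le_self_pow₀ h1 (by omega)).trans h

/-- (CL3) -/
theorem cl3 (hRB : T_RB) (hRO : T_RO) (hEU : T_EU) (hLB : H25.DL.T_LB) (hFQ : T_FQ) (hDG : T_DG)
    (hPH : T_PH) : T_CL3 := by
  intro F m hm1 y tY hy hyY
  obtain ⟨β₁, tE, hβ₁, hEU⟩ := hEU F
  obtain ⟨b₀, c, tL, hc, hLB⟩ := hLB F
  obtain ⟨tF, hFQ⟩ := hFQ F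
  obtain ⟨tD, htD1, hdiff, hgrow⟩ := hDG F
  obtain ⟨tP, hP⟩ := hPH F
  obtain ⟨β₂, hβ₂, hPr2⟩ := H11.DL.norm_Pr_sub_one F.f
  obtain ⟨β₃, hβ₃, hPr3⟩ := H11.DL.norm_Pr_sub_one (rf F m)
  refine ⟨max β₁ (max β₂ β₃), lt_max_of_lt_left hβ₁, fun β hβ' => ?_⟩
  have hβ : β₁ ≤ β := (le_max_left _ _).trans hβ'
  have hβb2 : β₂ ≤ β := ((le_max_left _ _).trans (le_max_right _ _)).trans hβ'
  have hβb3 : β₃ ≤ β := ((le_max_right _ _).trans (le_max_right _ _)).trans hβ'
  obtain ⟨hr2, hPr2⟩ := hPr2 β hβb2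
  obtain ⟨hr3, hPr3⟩ := hPr3 β hβb3
  intro A hA1
  have hβ0 : 0 < β := hβ₁.trans_le hβ
  obtain ⟨b, hb⟩ : ∃ b : ℝ, b = max b₀ 1 := ⟨_, rfl⟩
  have hb0 : b₀ ≤ b := by rw [hb]; exact le_max_left _ _
  have hb1 : 1 ≤ b := by rw [hb]; exact le_max_right _ _
  obtain ⟨R₁, hR₁⟩ : ∃ R₁ : ℝ, R₁ = b + β + 2 := ⟨_, rfl⟩
  obtain ⟨R₃, hR₃⟩ : ∃ R₃ : ℝ, R₃ = R₁ + 2 := ⟨_, rfl⟩
  obtain ⟨Cg, hCg, hgr⟩ := H94.LI.growth R₁ (R₁ + 1) R₃ (by linarith) (by linarith) (by linarith)
  obtain ⟨CD, hCD, hND⟩ := hgrow (b + R₃)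
  obtain ⟨CY, hCY, hY⟩ := hP.growth (1 / 2 + β)
  obtain ⟨k, hk⟩ : ∃ k : ℝ, k = 1 / (4 * c) := ⟨_, rfl⟩
  have hk0 : 0 < k := by rw [hk]; positivity
  -- exponents
  obtain ⟨e₁, he₁⟩ : ∃ e₁ : ℝ, e₁ = CD + 1 := ⟨_, rfl⟩
  obtain ⟨e₂, he₂⟩ : ∃ e₂ : ℝ, e₂ = |F.d| * β + 1 := ⟨_, rfl⟩
  have he₂0 : 0 ≤ e₂ := by rw [he₂]; positivity
  have he₁1 : 1 ≤ e₁ := by rw [he₁]; linarith
  -- large T
  have hlog := Real.tendsto_log_atTop
  have hsmall : ∀ᶠ T : ℝ in atTop, 3 * Real.log T ^ A ≤ T / 2 := by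
    have h1 : (fun T : ℝ => Real.log T ^ A) =o[atTop] fun T : ℝ => T := by
      have := isLittleO_log_rpow_rpow_atTop A (show (0 : ℝ) < 1 by norm_num)
      simpa using this
    have h2 := h1.bound (show (0 : ℝ) < 1 / 6 by norm_num)
    filter_upwards [h2, eventually_ge_atTop (1 : ℝ)] with T hT hT0
    rw [Real.norm_eq_abs, Real.norm_eq_abs, abs_of_nonneg (by linarith : (0 : ℝ) ≤ T)] at hT
    have := (le_abs_self _).trans hT
    linarith
  obtain ⟨T₀, hT₀⟩ := eventually_atTop.1 ((hlog.eventually_gt_atTop (2 * R₃)).and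
    ((hlog.eventually_ge_atTop 1).and ((hsmall).and
    ((eventually_ge_atTop (2 * tE)).and ((eventually_ge_atTop (2 * tL)).and
    ((eventually_ge_atTop (2 * tF)).and ((eventually_ge_atTop (2 * tD)).and
    ((eventually_ge_atTop (2 * tP)).and ((eventually_ge_atTop (2 : ℝ)).and
    ((eventually_ge_atTop (k * CD * 3 ^ CD)).and
      ((eventually_ge_atTop (CY * 3 ^ (|F.d| * β))).and
        (eventually_ge_atTop (2 * tY)))))))))))))
  refine ⟨e₁ * Cg + e₂, T₀, fun T hT u hu hexc => ?_⟩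
  obtain ⟨hlR, hl1, hsm, htE, htL, htF, htD, htP, hT2, hTk, hTY, htY⟩ := hT₀ T hT
  obtain ⟨ℓ, hℓ⟩ : ∃ ℓ : ℝ, ℓ = Real.log T := ⟨_, rfl⟩
  rw [← hℓ] at hlR hl1 hsm hexc
  obtain ⟨H, hH⟩ : ∃ H : ℝ, H = ℓ ^ A := ⟨_, rfl⟩
  have hlH : ℓ ≤ H := by
    rw [hH]
    calc ℓ = ℓ ^ (1 : ℝ) := (Real.rpow_one ℓ).symm
      _ ≤ ℓ ^ A := Real.rpow_le_rpow_of_exponent_le hl1 hA1
  rw [← hH] at hsm hexc
  have hT0 : 0 < T := by linarith
  have hT1 : 1 ≤ T := by linarith
  have hu1 := hu.1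
  have hu2 := hu.2
  obtain ⟨w₀, hw₀⟩ : ∃ w₀ : ℝ, w₀ = u + H / 2 := ⟨_, rfl⟩
  obtain ⟨ρ, hρ⟩ : ∃ ρ : ℝ, ρ = H / 2 + ℓ := ⟨_, rfl⟩
  have hρ1 : ρ ≤ 3 / 2 * H := by rw [hρ]; linarith
  have hR3H : 2 * R₃ < H := hlR.trans_le hlH
  obtain ⟨V, hV⟩ : ∃ V : Set ℂ, V = rect (12 / 5 * H) (12 / 5 * H) w₀ := ⟨_, rfl⟩
  obtain ⟨U, hU⟩ : ∃ U : Set ℂ, U = rect (23 / 10 * H) (23 / 10 * H) w₀ := ⟨_, rfl⟩
  have hUo : IsOpen U := by rw [hU]; exact isOpen_rect _ _ _
  have hVo : IsOpen V := by rw [hV]; exact isOpen_rect _ _ _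
  have hUc : IsPreconnected U := by rw [hU]; exact (convex_rect _ _ _).isPreconnected
  have hVc : IsPreconnected V := by rw [hV]; exact (convex_rect _ _ _).isPreconnected
  have hUV : closure U ⊆ V := by
    rw [hU, hV]
    refine (closure_rect_subset _ _ _).trans fun s hs => ⟨?_, ?_⟩
    · have := hs.1; linarith
    · have := hs.2; linarith
  have hVu : ∀ s ∈ V, |s.im - u| ≤ 3 * H := by
    intro s hs
    rw [hV] at hs
    have h1 := abs_lt.1 hs.2
    rw [abs_le]
    constructor <;> linarith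
  have hVim : ∀ s ∈ V, T / 2 ≤ s.im ∧ s.im ≤ 3 * T := by
    intro s hs
    have h1 := abs_le.1 (hVu s hs)
    constructor <;> linarith
  have hUsub : U ⊆ V := subset_closure.trans hUV
  have hMd : DifferentiableOn ℂ F.M V := fun s hs =>
    ((hdiff s (by have := (hVim s hs).1; linarith)).2).differentiableWithinAt
  have hNd : DifferentiableOn ℂ F.N V := fun s hs =>
    ((hdiff s (by have := (hVim s hs).1; linarith)).1).differentiableWithinAt
  have hpt : ∀ t : ℝ, |t - w₀| ≤ ρ → ((b : ℂ) + t * I) ∈ V := by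
    intro t ht
    rw [hV]
    refine ⟨?_, ?_⟩
    · simp only [add_re, ofReal_re, mul_re, I_re, mul_zero, ofReal_im, I_im, mul_one, sub_self,
        add_zero]
      rw [abs_of_nonneg (by linarith)]
      linarith
    · simp only [add_im, ofReal_im, mul_im, ofReal_re, I_im, mul_one, I_re, mul_zero, add_zero,
        zero_add]
      linarith
  have hMp : ∀ t : ℝ, |t - w₀| ≤ ρ → c ≤ ‖F.M (b + t * I)‖ := by
    intro t ht
    refine hLB b hb0 t ?_
    have := (abs_le.1 ht).1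
    linarith
  have hρ0 : |w₀ - w₀| ≤ ρ := by simp; linarith
  have hMp0 : ∃ p ∈ V, F.M p ≠ 0 := by
    refine ⟨b + w₀ * I, hpt w₀ hρ0, ?_⟩
    intro h0
    have := hMp w₀ hρ0
    rw [h0, norm_zero] at this
    linarith
  obtain ⟨G, hGd, hMG⟩ := H15.LI.qu U V F.M F.N hUo hVo hVc (by rw [hU]; exact bounded_rect _ _ _)
    hUV hMd hNd hMp0 (fun w hw _ => by
      by_contra hcon
      refine hexc w (fun kk hkk => hcon ?_) (hVu w (hUV hw))
      rw [hkk]
      exact le_self_add)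
  -- balls
  have hball : ∀ t : ℝ, |t - w₀| ≤ ρ → closedBall ((b : ℂ) + t * I) R₃ ⊆ U := by
    intro t ht s hs
    rw [mem_closedBall, dist_eq_norm] at hs
    have h1 := (abs_re_le_norm _).trans hs
    have h2 := (abs_im_le_norm _).trans hs
    simp only [sub_re, add_re, ofReal_re, mul_re, I_re, mul_zero, ofReal_im, I_im, mul_one,
      sub_self, add_zero] at h1
    simp only [sub_im, add_im, ofReal_im, mul_im, ofReal_re, I_im, mul_one, I_re, mul_zero,
      add_zero, zero_add] at h2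
    rw [hU]
    have h1' := abs_le.1 h1
    have h2' := abs_le.1 h2
    have h3' := abs_le.1 ht
    refine ⟨?_, ?_⟩
    · rw [abs_lt]; constructor <;> linarith
    · rw [abs_lt]; constructor <;> linarith
  have hMbd : ∀ s : ℂ, |s.re| ≤ b + R₃ → s ∈ V → k * ‖F.N s‖ ≤ T ^ e₁ ∧ k * ‖F.M s‖ ≤ T ^ e₁ := by
    intro s hs hsV
    obtain ⟨h1, h2⟩ := hVim s hsV
    obtain ⟨h3, h4⟩ := hND s hs (by linarith)
    have h5 : k * (CD * s.im ^ CD) ≤ T ^ e₁ := by
      have h6 : s.im ^ CD ≤ (3 * T) ^ CD := Real.rpow_le_rpow (by linarith) h2 hCD.le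
      calc k * (CD * s.im ^ CD) ≤ k * (CD * (3 * T) ^ CD) := by gcongr
        _ = (k * CD * 3 ^ CD) * T ^ CD := by
            rw [Real.mul_rpow (by norm_num) hT0.le]; ring
        _ ≤ T * T ^ CD := by gcongr
        _ = T ^ e₁ := by rw [he₁, Real.rpow_add hT0, Real.rpow_one]; ring
    exact ⟨(mul_le_mul_of_nonneg_left h3 hk0.le).trans h5,
      (mul_le_mul_of_nonneg_left h4 hk0.le).trans h5⟩
  have hMT : (2 : ℝ) ≤ T ^ e₁ := by
    calc (2 : ℝ) ≤ T := hT2
      _ = T ^ (1 : ℝ) := (Real.rpow_one T).symm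
      _ ≤ T ^ e₁ := Real.rpow_le_rpow_of_exponent_le hT1 he₁1
  have hGball : ∀ t : ℝ, |t - w₀| ≤ ρ → ∀ s ∈ closedBall ((b : ℂ) + t * I) R₁,
      ‖G s‖ ≤ T ^ (e₁ * Cg) := by
    intro t ht s hs
    have h1 := hgr ((b : ℂ) + t * I) (T ^ e₁) U (fun s => (k : ℂ) * F.M s)
      (fun s => (k : ℂ) * F.N s) G hMT hUo hUc (hball t ht) ((hMd.mono hUsub).const_mul _)
      ((hNd.mono hUsub).const_mul _) hGd (fun s hs => by rw [mul_assoc, hMG s hs])
      (fun s hs => by
        have h2 := hball t ht hs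
        rw [mem_closedBall, dist_eq_norm] at hs
        have h3 := (abs_re_le_norm _).trans hs
        simp only [sub_re, add_re, ofReal_re, mul_re, I_re, mul_zero, ofReal_im, I_im, mul_one,
          sub_self, add_zero] at h3
        have h4 : |s.re| ≤ b + R₃ := by
          rw [abs_le] at h3 ⊢
          constructor <;> linarith [h3.1, h3.2]
        obtain ⟨h5, h6⟩ := hMbd s h4 (hUsub h2)
        simp only [norm_mul, Complex.norm_real, Real.norm_eq_abs, abs_of_pos hk0]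
        exact ⟨h6, h5⟩)
      (by
        simp only [norm_mul, Complex.norm_real, Real.norm_eq_abs, abs_of_pos hk0]
        have h2 := hMp t ht
        calc (1 / 4 : ℝ) = k * c := by rw [hk]; field_simp
          _ ≤ _ := by gcongr) s hs
    rwa [← Real.rpow_mul hT0.le] at h1
  have hbox : ∀ s ∈ box β ρ w₀, s ∈ U ∧ ‖G s‖ ≤ T ^ (e₁ * Cg) := by
    intro s hs
    have h1 : s ∈ closedBall ((b : ℂ) + s.im * I) R₁ := by
      rw [mem_closedBall, dist_eq_norm]
      have e : s - (b + s.im * I) = ((s.re - b : ℝ) : ℂ) := by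
        apply Complex.ext <;> simp
      rw [e, Complex.norm_real, Real.norm_eq_abs]
      have h2 := abs_le.1 hs.1
      rw [abs_le]
      constructor <;> linarith
    have h2 := hGball s.im hs.2 s h1
    refine ⟨hball s.im hs.2 ?_, h2⟩
    exact closedBall_subset_closedBall (by linarith) h1
  -- the functional equation of G
  have hMa : AnalyticOnNhd ℂ F.M V := fun z hz => hMd.analyticAt (hVo.mem_nhds hz)
  have hNa : AnalyticOnNhd ℂ F.N V := fun z hz => hNd.analyticAt (hVo.mem_nhds hz)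
  have hGa : AnalyticOnNhd ℂ G U := fun z hz => hGd.analyticAt (hUo.mem_nhds hz)
  have hMne : ∀ s ∈ V, ∀ᶠ z in 𝓝[≠] s, F.M z ≠ 0 := by
    intro s hs
    by_contra hcon
    have h1 : ∃ᶠ z in 𝓝[≠] s, F.M z = 0 := by
      rw [Filter.not_eventually] at hcon
      exact hcon.mono fun z hz => by simpa using hz
    have h2 := hMa.eqOn_zero_of_preconnected_of_frequently_eq_zero hVc hs h1
    obtain ⟨p, hp, hp0⟩ := hMp0
    exact hp0 (h2 hp)
  have hrefl : Continuous fun s : ℂ => 1 - (starRingEnd ℂ) s :=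
    continuous_const.sub Complex.continuous_conj
  have hrefl2 : ∀ s : ℂ, Tendsto (fun z : ℂ => 1 - (starRingEnd ℂ) z) (𝓝[≠] s)
      (𝓝[≠] (1 - (starRingEnd ℂ) s)) := by
    intro s
    refine tendsto_nhdsWithin_iff.2 ⟨(hrefl.tendsto s).mono_left nhdsWithin_le_nhds, ?_⟩
    filter_upwards [self_mem_nhdsWithin] with z hz
    intro h0
    apply hz
    have h1 : (starRingEnd ℂ) z = (starRingEnd ℂ) s := by
      have h0' : (1 : ℂ) - (starRingEnd ℂ) z = 1 - (starRingEnd ℂ) s := h0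
      linear_combination -h0'
    exact (starRingEnd ℂ).injective h1
  have hGY : ∀ s ∈ U, G s * F.Y s = (starRingEnd ℂ) (G (1 - (starRingEnd ℂ) s)) := by
    intro s hs
    have hs' : 1 - (starRingEnd ℂ) s ∈ U := by rw [hU] at hs ⊢; exact reflect_mem_rect hs
    have hev : ∀ᶠ z in 𝓝[≠] s, G z * F.Y z = (starRingEnd ℂ) (G (1 - (starRingEnd ℂ) z)) := by
      filter_upwards [hMne s (hUsub hs), (hrefl2 s).eventually (hMne _ (hUsub hs')),
        nhdsWithin_le_nhds (hUo.mem_nhds hs)] with z hz1 hz2 hz3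
      have hz3' : 1 - (starRingEnd ℂ) z ∈ U := by rw [hU] at hz3 ⊢; exact reflect_mem_rect hz3
      have h1 := hFQ z (by have := (hVim z (hUsub hz3)).1; linarith)
      rw [← hMG z hz3, ← hMG _ hz3', map_mul] at h1
      have h2 : (starRingEnd ℂ) (F.M (1 - (starRingEnd ℂ) z)) ≠ 0 := by
        rw [Ne, map_eq_zero]
        exact hz2
      have h3 : F.M z * (starRingEnd ℂ) (F.M (1 - (starRingEnd ℂ) z)) *
          (G z * F.Y z - (starRingEnd ℂ) (G (1 - (starRingEnd ℂ) z))) = 0 := by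
        linear_combination h1
      rcases mul_eq_zero.1 h3 with h4 | h4
      · exact absurd h4 (mul_ne_zero hz1 h2)
      · linear_combination h4
    have hGc : ContinuousAt G s := (hGd.differentiableAt (hUo.mem_nhds hs)).continuousAt
    have hGc' : ContinuousAt G (1 - (starRingEnd ℂ) s) :=
      (hGd.differentiableAt (hUo.mem_nhds hs')).continuousAt
    have hYc : ContinuousAt F.Y s :=
      (hP.diff s (by have := (hVim s (hUsub hs)).1; linarith)).continuousAt
    have hl : Tendsto (fun z => G z * F.Y z) (𝓝[≠] s) (𝓝 (G s * F.Y s)) :=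
      ((hGc.mul hYc).tendsto).mono_left nhdsWithin_le_nhds
    have hr : Tendsto (fun z => (starRingEnd ℂ) (G (1 - (starRingEnd ℂ) z))) (𝓝[≠] s)
        (𝓝 ((starRingEnd ℂ) (G (1 - (starRingEnd ℂ) s)))) := by
      have h1 : ContinuousAt (fun z => G (1 - (starRingEnd ℂ) z)) s :=
        ContinuousAt.comp (f := fun z => 1 - (starRingEnd ℂ) z) (g := G) hGc' hrefl.continuousAt
      exact ((Complex.continuous_conj.continuousAt.comp h1).tendsto).mono_left nhdsWithin_le_nhds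
    exact tendsto_nhds_unique (hl.congr' hev) hr
  -- the root
  have hc₀U : ball (1 / 2 + w₀ * I : ℂ) (11 / 5 * H) ⊆ U := by
    intro s hs
    rw [mem_ball, dist_eq_norm] at hs
    have h1 := (abs_re_le_norm _).trans_lt hs
    have h2 := (abs_im_le_norm _).trans_lt hs
    have e1 : (s - (1 / 2 + w₀ * I : ℂ)).re = s.re - 1 / 2 := by simp
    have e2 : (s - (1 / 2 + w₀ * I : ℂ)).im = s.im - w₀ := by simp
    rw [e1] at h1
    rw [e2] at h2
    rw [hU]
    exact ⟨by linarith, by linarith⟩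
  have hboxB : ∀ s ∈ box β ρ w₀, s ∈ ball (1 / 2 + w₀ * I : ℂ) (21 / 10 * H) := by
    intro s hs
    rw [mem_ball, dist_eq_norm]
    refine (Complex.norm_le_abs_re_add_abs_im _).trans_lt ?_
    have e1 : (s - (1 / 2 + w₀ * I : ℂ)).re = s.re - 1 / 2 := by simp
    have e2 : (s - (1 / 2 + w₀ * I : ℂ)).im = s.im - w₀ := by simp
    rw [e1, e2]
    have h1 := hs.1
    have h2 := hs.2
    linarith
  -- values on the right line
  have hin : ∀ t : ℝ, |t - w₀| ≤ ρ → (1 / 2 + β + t * I : ℂ) ∈ box β ρ w₀ := by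
    intro t ht
    refine ⟨?_, ?_⟩
    · have : (1 / 2 + β + t * I : ℂ).re - 1 / 2 = β := by simp
      rw [this, abs_of_pos hβ0]
    · have : (1 / 2 + β + t * I : ℂ).im = t := by simp
      rw [this]
      exact ht
  have hin2 : ∀ t : ℝ, |t - w₀| ≤ ρ → (1 / 2 - β + t * I : ℂ) ∈ box β ρ w₀ := by
    intro t ht
    refine ⟨?_, ?_⟩
    · have : (1 / 2 - β + t * I : ℂ).re - 1 / 2 = -β := by simp
      rw [this, abs_neg, abs_of_pos hβ0]
    · have : (1 / 2 - β + t * I : ℂ).im = t := by simp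
      rw [this]
      exact ht
  have hGr : ∀ t : ℝ, |t - w₀| ≤ ρ →
      G (1 / 2 + β + t * I) = Pr (rf F m) (1 / 2 + β + t * I) ^ m := by
    intro t ht
    obtain ⟨hsU, _⟩ := hbox _ (hin t ht)
    obtain ⟨h1, h2⟩ := hEU β hβ t (by have := (abs_le.1 ht).1; linarith)
    have h3 := hMG _ hsU
    rw [h2] at h3
    have h4 := mul_left_cancel₀ h1 h3
    rw [h4]
    symm
    apply hRO F m hm1
    intro l
    have h5 := hr2 l
    have h6 : (wl (F.f l).r (F.f l).τ (1 / 2 + β + t * I)).re = 1 / 2 + (F.f l).r * β := by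
      unfold wl
      simp
    rw [h6]
    linarith
  have hP0 : ∀ t : ℝ, Pr (rf F m) (1 / 2 + β + t * I) ≠ 0 := by
    intro t h0
    have h1 := hPr3 (1 / 2 + β + t * I) (by simp)
    rw [h0, zero_sub, norm_neg, norm_one] at h1
    norm_num at h1
  obtain ⟨g, hgd, hgG⟩ := hRB (1 / 2 + w₀ * I) (11 / 5 * H) (21 / 10 * H) m G (by linarith)
    (by linarith) hm1 (hGd.mono hc₀U) ⟨1 / 2 + β + w₀ * I,
      ball_subset_ball (by linarith) (hboxB _ (hin w₀ hρ0)), by
        rw [hGr w₀ hρ0]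
        exact pow_ne_zero m (hP0 w₀)⟩ (by
      intro z hz
      have hzU : z ∈ U := hc₀U hz
      have hzV : z ∈ V := hUsub hzU
      by_contra hcon
      push Not at hcon
      refine hexc z (fun kk hkk => hcon kk ?_) (hVu z hzV)
      have h1 : F.N =ᶠ[𝓝 z] F.M * G := by
        filter_upwards [hUo.mem_nhds hzU] with s hs
        exact (hMG s hs).symm
      have h2 : analyticOrderAt F.N z = analyticOrderAt F.M z + analyticOrderAt G z := by
        rw [analyticOrderAt_congr h1, analyticOrderAt_mul (hMa z hzV) (hGa z hzU)]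
      have h3 : analyticOrderAt F.M z ≠ ⊤ := by
        intro h4
        rw [analyticOrderAt_eq_top] at h4
        obtain ⟨p, hp, hp0⟩ := hMp0
        exact hp0 (hMa.eqOn_zero_of_preconnected_of_eventuallyEq_zero hVc hzV h4 hp)
      rw [h2] at hkk
      rw [add_comm (analyticOrderAt F.M z) (analyticOrderAt G z),
        add_comm (analyticOrderAt F.M z) ((m * kk : ℕ) : ℕ∞)] at hkk
      exact (WithTop.add_right_inj h3).1 hkk)
  -- constants on both lines
  have hIcc : ∀ t ∈ Icc (w₀ - ρ) (w₀ + ρ), |t - w₀| ≤ ρ := by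
    intro t ht
    rw [abs_le]
    constructor <;> linarith [ht.1, ht.2]
  have hgc : ∀ s ∈ box β ρ w₀, DifferentiableAt ℂ g s := fun s hs =>
    hgd.differentiableAt (isOpen_ball.mem_nhds (hboxB s hs))
  have hyd : ∀ s ∈ box β ρ w₀, DifferentiableAt ℂ y s := fun s hs =>
    hy.diff s (by have := (hVim s (hUsub (hbox s hs).1)).1; linarith)
  have hcr : Continuous fun t : ℝ => (1 / 2 + β + t * I : ℂ) := by fun_prop
  have hcl : Continuous fun t : ℝ => (1 / 2 - β + t * I : ℂ) := by fun_prop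
  have hPc : Continuous fun t : ℝ => Pr (rf F m) (1 / 2 + β + t * I) := by
    have h1 := H11.DL.continuous_Pr (rf F m) (1 / 2 + β) (fun l => by
      have := hr3 l
      have e : (1 / 2 + β - 1 / 2 : ℝ) = β := by ring
      rw [e]
      linarith)
    refine h1.congr fun t => ?_
    push_cast
    rfl
  have hbar : ∀ t : ℝ, Pr (fun l => (rf F m l).bar) (1 / 2 + β - t * I) =
      (starRingEnd ℂ) (Pr (rf F m) (1 / 2 + β + t * I)) := by
    intro t
    have e2 : (starRingEnd ℂ) (1 / 2 + β + t * I : ℂ) = 1 / 2 + β - t * I := by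
      simp only [map_add, map_mul, map_div₀, map_one, map_ofNat, conj_ofReal, conj_I]
      ring
    rw [conj_Pr, e2]
  have hab : w₀ - ρ ≤ w₀ + ρ := by linarith
  obtain ⟨w1, hw1, hr1⟩ := root_const hm1 hab (p := fun t => g (1 / 2 + β + t * I))
    (q := fun t => Pr (rf F m) (1 / 2 + β + t * I))
    (fun t ht => ((hgc _ (hin t (hIcc t ht))).continuousAt.comp
      (f := fun t : ℝ => (1 / 2 + β + t * I : ℂ)) hcr.continuousAt).continuousWithinAt)
    hPc.continuousOn (fun t _ => hP0 t) (fun t ht => by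
      show g _ ^ m = Pr (rf F m) _ ^ m
      rw [hgG _ (hboxB _ (hin t (hIcc t ht))), hGr t (hIcc t ht)])
  obtain ⟨w2, hw2, hl1'⟩ := root_const hm1 hab
    (p := fun t => g (1 / 2 - β + t * I) * y (1 / 2 - β + t * I))
    (q := fun t => Pr (fun l => (rf F m l).bar) (1 / 2 + β - t * I))
    (fun t ht => (((hgc _ (hin2 t (hIcc t ht))).continuousAt.comp
      (f := fun t : ℝ => (1 / 2 - β + t * I : ℂ)) hcl.continuousAt).mul
      ((hyd _ (hin2 t (hIcc t ht))).continuousAt.comp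
      (f := fun t : ℝ => (1 / 2 - β + t * I : ℂ)) hcl.continuousAt)).continuousWithinAt)
    (by
      have h1 : Continuous fun t : ℝ => Pr (fun l => (rf F m l).bar) (1 / 2 + β - t * I) := by
        refine (Complex.continuous_conj.comp hPc).congr fun t => ?_
        exact (hbar t).symm
      exact h1.continuousOn) (fun t _ => by
        rw [hbar t, Ne, map_eq_zero]
        exact hP0 t) (fun t ht => by
      have h1 := hin2 t (hIcc t ht)
      have h2 := hbox _ h1
      show (g _ * y _) ^ m = Pr _ _ ^ m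
      rw [mul_pow, hgG _ (hboxB _ h1), hyY _ (by have := (hVim _ (hUsub h2.1)).1; linarith),
        hGY _ h2.1, hbar t, ← map_pow, ← hGr t (hIcc t ht)]
      have e1 : 1 - (starRingEnd ℂ) (1 / 2 - β + t * I : ℂ) = 1 / 2 + β + t * I := by
        simp only [map_add, map_mul, map_sub, map_div₀, map_one, map_ofNat, conj_ofReal, conj_I]
        ring
      rw [e1])
  have hw20 : w2 ≠ 0 := by
    intro h0
    rw [h0, zero_pow (by omega)] at hw2
    exact zero_ne_one hw2
  have hnw2 : ‖w2‖ = 1 := norm_eq_one_of_pow_eq_one hw2 (by omega)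
  refine ⟨w1 / w2, by rw [div_pow, hw1, hw2, div_one], fun v hv => ?_⟩
  have hvb : ∀ t : ℝ, |t - v| ≤ ℓ → |t - w₀| ≤ ρ := by
    intro t ht
    have h1 := abs_le.1 ht
    have h2 := hv.1
    have h3 := hv.2
    rw [← hℓ, ← hH] at h3
    rw [abs_le]
    constructor <;> linarith
  refine ⟨fun s => g s * y s / w2, fun s hs => ?_, fun t ht => ?_, fun t ht => ?_⟩
  · rw [← hℓ] at hs
    have hs1 : s ∈ box β ρ w₀ := ⟨hs.1, hvb _ hs.2⟩
    obtain ⟨hsU, hGs⟩ := hbox s hs1
    have him := hVim s (hUsub hsU)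
    refine ⟨((hgc s hs1).mul (hyd s hs1)).div_const _, ?_⟩
    have hTe : T ^ (e₁ * Cg + e₂) = T ^ (e₁ * Cg) * T ^ e₂ := Real.rpow_add hT0 _ _
    have hp1 := Real.rpow_pos_of_pos hT0 (e₁ * Cg)
    have hTC : (1 : ℝ) ≤ T ^ (e₁ * Cg + e₂) := Real.one_le_rpow hT1 (by positivity)
    simp only
    rw [norm_div, hnw2, div_one]
    refine le_of_pow_le hm1 hTC ?_
    rw [← norm_pow, mul_pow, hgG s (hboxB s hs1), hyY s (by linarith [him.1])]
    rcases le_total (1 / 2) s.re with hre | hre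
    · have h1 : ‖F.Y s‖ ≤ T ^ e₂ := by
        have h2 := hY s.re s.im hre (by have := (abs_le.1 hs.1).2; linarith) (by linarith [him.1])
        rw [Complex.re_add_im] at h2
        refine h2.trans ?_
        have h3 : s.im ^ (F.d * (s.re - 1 / 2)) ≤ (3 * T) ^ (|F.d| * β) := by
          have h4 : F.d * (s.re - 1 / 2) ≤ |F.d| * β := by
            have h5 := (abs_le.1 hs.1).2
            have h6 := le_abs_self F.d
            have h7 := abs_nonneg F.d
            nlinarith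
          calc s.im ^ (F.d * (s.re - 1 / 2)) ≤ s.im ^ (|F.d| * β) :=
                Real.rpow_le_rpow_of_exponent_le (by linarith [him.1]) h4
            _ ≤ (3 * T) ^ (|F.d| * β) := Real.rpow_le_rpow (by linarith [him.1]) him.2 (by positivity)
        calc CY * s.im ^ (F.d * (s.re - 1 / 2)) ≤ CY * (3 * T) ^ (|F.d| * β) := by gcongr
          _ = (CY * 3 ^ (|F.d| * β)) * T ^ (|F.d| * β) := by
              rw [Real.mul_rpow (by norm_num) hT0.le]; ring
          _ ≤ T * T ^ (|F.d| * β) := by gcongr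
          _ = T ^ e₂ := by rw [he₂, Real.rpow_add hT0, Real.rpow_one]; ring
      rw [norm_mul, hTe]
      gcongr
    · rw [hGY s hsU, RCLike.norm_conj, hTe]
      have hs' : 1 - (starRingEnd ℂ) s ∈ box β ρ w₀ := by
        refine ⟨?_, ?_⟩
        · have : (1 - (starRingEnd ℂ) s).re - 1 / 2 = -(s.re - 1 / 2) := by simp; ring
          rw [this, abs_neg]
          exact hs1.1
        · have : (1 - (starRingEnd ℂ) s).im = s.im := by simp
          rw [this]
          exact hs1.2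
      refine (hbox _ hs').2.trans ?_
      have h1 : (1 : ℝ) ≤ T ^ e₂ := Real.one_le_rpow hT1 he₂0
      nlinarith
  · rw [← hℓ] at ht
    have ht1 := hvb t ht
    have ht2 := abs_le.1 ht1
    have h1 := hr1 t ⟨by linarith, by linarith⟩
    simp only at h1 ⊢
    rw [h1]
    field_simp
  · rw [← hℓ] at ht
    have ht1 := hvb t ht
    have ht2 := abs_le.1 ht1
    have h1 := hl1' t ⟨by linarith, by linarith⟩
    simp only at h1 ⊢
    rw [h1]
    field_simp

end Pool.Agent.H34.MZ
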