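import Pool.Agent.H25.MZ.Targets

/-!
# MZ, module ZC: the powers `ζ ^ (1/m)` and `ζ ^ (-1/m)`
-/

set_option autoImplicit false

open Complex Set

namespace Pool.Agent.H34.MZ

open Pool.Agent.H25.DL Pool.Agent.H25.HK Pool.Agent.H25.MZ

lemma bw_zero (w : ℝ) : bw w 0 = 1 := by simp [bw]

lemma bw_succ (w : ℝ) (v : ℕ) : (v + 1) * bw w (v + 1) = (w + v) * bw w v := by
  unfold bw
  rw [Finset.prod_range_succ]
  have : (v + 1 : ℝ) ≠ 0 := by positivity
  field_simp

/-- Vandermonde -/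
lemma bw_add (w w' : ℝ) (v : ℕ) :
    ∑ p ∈ Finset.HasAntidiagonal.antidiagonal v, bw w p.1 * bw w' p.2 = bw (w + w') v := by
  induction v with
  | zero => simp [bw_zero]
  | succ v ih =>
    have hv : (v + 1 : ℝ) ≠ 0 := by positivity
    apply mul_left_cancel₀ hv
    rw [bw_succ, ← ih]
    have h1 : (v + 1 : ℝ) * ∑ p ∈ Finset.HasAntidiagonal.antidiagonal (v + 1), bw w p.1 * bw w' p.2
        = ∑ p ∈ Finset.HasAntidiagonal.antidiagonal (v + 1), ((p.1 : ℝ) * bw w p.1 * bw w' p.2)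
          + ∑ p ∈ Finset.HasAntidiagonal.antidiagonal (v + 1), (bw w p.1 * ((p.2 : ℝ) * bw w' p.2)) := by
      rw [Finset.mul_sum, ← Finset.sum_add_distrib]
      apply Finset.sum_congr rfl
      intro p hp
      rw [Finset.HasAntidiagonal.mem_antidiagonal] at hp
      have : (v + 1 : ℝ) = p.1 + p.2 := by
        rw [← Nat.cast_add, hp]
        push_cast
        ring
      rw [this]
      ring
    rw [h1, Finset.Nat.sum_antidiagonal_succ, Finset.Nat.sum_antidiagonal_succ' (n := v)]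
    simp only [Nat.cast_zero, zero_mul, mul_zero, zero_add, Nat.cast_add, Nat.cast_one]
    rw [Finset.mul_sum, ← Finset.sum_add_distrib]
    apply Finset.sum_congr rfl
    intro p hp
    rw [Finset.HasAntidiagonal.mem_antidiagonal] at hp
    rw [bw_succ, bw_succ]
    have : (v : ℝ) = p.1 + p.2 := by rw [← Nat.cast_add, hp]
    rw [this]
    ring

lemma zw_mul (w : ℝ) {a b : ℕ} (hab : Nat.Coprime a b) : zw w (a * b) = zw w a * zw w b := by
  rcases Nat.eq_zero_or_pos a with rfl | ha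
  · rw [zero_mul, zw_zero, zero_mul]
  rcases Nat.eq_zero_or_pos b with rfl | hb
  · rw [mul_zero, zw_zero, mul_zero]
  unfold zw
  rw [if_neg ha.ne', if_neg hb.ne', if_neg (Nat.mul_pos ha hb).ne',
    Nat.factorization_mul_of_coprime hab, Finsupp.prod_add_index_of_disjoint]
  rw [Nat.support_factorization, Nat.support_factorization]
  exact hab.disjoint_primeFactors

lemma zw_pow (w : ℝ) {p : ℕ} (hp : p.Prime) (v : ℕ) : zw w (p ^ v) = bw w v := by
  unfold zw
  rw [if_neg (pow_ne_zero v hp.ne_zero), hp.factorization_pow]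
  exact Finsupp.prod_single_index (h := fun _ v => bw w v) (bw_zero w)

/-- the real arithmetic function -/
noncomputable def zA (w : ℝ) : ArithmeticFunction ℝ := ⟨zw w, zw_zero w⟩

lemma zA_mult (w : ℝ) : (zA w).IsMultiplicative :=
  ⟨zw_one w, fun {_ _} h => zw_mul w h⟩

lemma zA_add (w w' : ℝ) : zA w * zA w' = zA (w + w') := by
  rw [ArithmeticFunction.IsMultiplicative.eq_iff_eq_on_prime_powers _
    ((zA_mult w).mul (zA_mult w')) _ (zA_mult (w + w'))]
  intro p i hp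
  have h1 : (zA (w + w')) (p ^ i) = bw (w + w') i := zw_pow _ hp i
  rw [h1, ArithmeticFunction.mul_apply, Nat.sum_divisorsAntidiagonal (f := fun a b => zA w a * zA w' b),
    Nat.divisors_prime_pow hp, Finset.sum_map, ← bw_add,
    Finset.Nat.sum_antidiagonal_eq_sum_range_succ (fun a b => bw w a * bw w' b)]
  apply Finset.sum_congr rfl
  intro j hj
  have hj' : j ≤ i := Nat.lt_succ_iff.1 (Finset.mem_range.1 hj)
  have h2 : p ^ i / p ^ j = p ^ (i - j) := Nat.pow_div hj' hp.pos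
  show zw w (p ^ j) * zw w' (p ^ i / p ^ j) = _
  rw [h2, zw_pow _ hp, zw_pow _ hp]

lemma zw_add (w w' : ℝ) (n : ℕ) :
    ∑ p ∈ n.divisorsAntidiagonal, zw w p.1 * zw w' p.2 = zw (w + w') n := by
  have h := congrArg (fun f : ArithmeticFunction ℝ => f n) (zA_add w w')
  simp only [ArithmeticFunction.mul_apply] at h
  exact h

lemma zw_zero_left {n : ℕ} (hn : 2 ≤ n) : zw 0 n = 0 := by
  unfold zw
  rw [if_neg (by omega), Finsupp.prod]
  obtain ⟨p, hp⟩ := (Nat.nonempty_primeFactors (n := n)).2 (by omega)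
  apply Finset.prod_eq_zero (i := p)
  · rw [Nat.support_factorization]
    exact hp
  · have h1 : 1 ≤ n.factorization p :=
      (Nat.prime_of_mem_primeFactors hp).factorization_pos_of_dvd (by omega)
        (Nat.dvd_of_mem_primeFactors hp)
    obtain ⟨v, hv⟩ : ∃ v, n.factorization p = v + 1 := ⟨n.factorization p - 1, by omega⟩
    rw [hv, bw, Finset.prod_range_succ']
    simp

lemma zw_one_left {n : ℕ} (hn : n ≠ 0) : zw 1 n = 1 := by
  unfold zw
  rw [if_neg hn, Finsupp.prod]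
  apply Finset.prod_eq_one
  intro p _
  unfold bw
  apply Finset.prod_eq_one
  intro i _
  rw [add_comm]
  exact div_self (by positivity)

variable {h : ℕ → ℂ}

/-- the twisted arithmetic function -/
noncomputable def hA (h : ℕ → ℂ) (h0 : h 0 = 0) (w : ℝ) : ArithmeticFunction ℂ :=
  ⟨fun n => h n * ((zw w n : ℝ) : ℂ), by rw [h0, zero_mul]⟩

lemma hA_add (h0 : h 0 = 0) (hm : ∀ a b, h (a * b) = h a * h b) (w w' : ℝ) :
    hA h h0 w * hA h h0 w' = hA h h0 (w + w') := by
  ext n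
  rw [ArithmeticFunction.mul_apply]
  show _ = h n * ((zw (w + w') n : ℝ) : ℂ)
  rw [← zw_add w w' n, Complex.ofReal_sum, Finset.mul_sum]
  apply Finset.sum_congr rfl
  intro p hp
  have h1 : p.1 * p.2 = n := (Nat.mem_divisorsAntidiagonal.1 hp).1
  show h p.1 * ((zw w p.1 : ℝ) : ℂ) * (h p.2 * ((zw w' p.2 : ℝ) : ℂ)) = _
  rw [← h1, hm, Complex.ofReal_mul]
  ring

lemma hA_summable (h0 : h 0 = 0) (hb : ∀ a, ‖h a‖ ≤ 1) {w : ℝ} (hw : |w| ≤ 1) {s : ℂ}
    (hs : 1 < s.re) : LSeriesSummable (fun n => hA h h0 w n) s := by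
  apply LSeriesSummable_of_bounded_of_one_lt_re (m := 1) _ hs
  intro n _
  show ‖h n * ((zw w n : ℝ) : ℂ)‖ ≤ 1
  rw [norm_mul, Complex.norm_real, Real.norm_eq_abs]
  exact mul_le_one₀ (hb n) (abs_nonneg _) (zw_le hw n)

lemma hA_mul (h0 : h 0 = 0) (hm : ∀ a b, h (a * b) = h a * h b) (hb : ∀ a, ‖h a‖ ≤ 1)
    {w w' : ℝ} (hw : |w| ≤ 1) (hw' : |w'| ≤ 1) {s : ℂ} (hs : 1 < s.re) :
    LSeries (fun n => hA h h0 w n) s * LSeries (fun n => hA h h0 w' n) s
      = LSeries (fun n => hA h h0 (w + w') n) s := by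
  rw [← hA_add h0 hm w w',
    ArithmeticFunction.LSeries_mul' (hA_summable h0 hb hw hs) (hA_summable h0 hb hw' hs)]

lemma hA_LSeries (h0 : h 0 = 0) (w : ℝ) (s : ℂ) :
    LSeries (fun n => hA h h0 w n) s = ∑' k : ℕ, h k * ((zw w k : ℝ) : ℂ) * (k : ℂ) ^ (-s) := by
  unfold LSeries
  apply tsum_congr
  intro k
  rw [LSeries.term_def₀]
  · rfl
  · show h 0 * _ = 0
    rw [h0, zero_mul]

lemma hA_zero (h0 : h 0 = 0) (h1 : h 1 = 1) (s : ℂ) : LSeries (fun n => hA h h0 0 n) s = 1 := by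
  rw [hA_LSeries, tsum_eq_single 1]
  · rw [h1, zw_one]
    simp
  · intro k hk
    rcases Nat.eq_zero_or_pos k with rfl | hpos
    · rw [h0, zero_mul, zero_mul]
    · rw [zw_zero_left (by omega)]
      simp

lemma hA_one (h0 : h 0 = 0) (s : ℂ) :
    LSeries (fun n => hA h h0 1 n) s = ∑' k : ℕ, h k * (k : ℂ) ^ (-s) := by
  rw [hA_LSeries]
  apply tsum_congr
  intro k
  rcases Nat.eq_zero_or_pos k with rfl | hpos
  · rw [h0, zero_mul, zero_mul]
  · rw [zw_one_left hpos.ne']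
    simp

lemma hA_pow (h0 : h 0 = 0) (h1 : h 1 = 1) (hm : ∀ a b, h (a * b) = h a * h b)
    (hb : ∀ a, ‖h a‖ ≤ 1) (m : ℕ) (hm1 : 1 ≤ m) (σ : ℝ) (hσ : |σ| = 1) {s : ℂ}
    (hs : 1 < s.re) : ∀ j : ℕ, j ≤ m →
    LSeries (fun n => hA h h0 (σ * (1 / m)) n) s ^ j = LSeries (fun n => hA h h0 (σ * (j / m)) n) s := by
  have hmR : (0 : ℝ) < m := by exact_mod_cast hm1
  intro j
  induction j with
  | zero =>
    intro _
    rw [pow_zero, Nat.cast_zero, zero_div, mul_zero, hA_zero h0 h1]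
  | succ j ih =>
    intro hj
    have hb1 : |σ * (j / m : ℝ)| ≤ 1 := by
      rw [abs_mul, hσ, one_mul, abs_of_nonneg (by positivity), div_le_one hmR]
      exact_mod_cast (by omega : j ≤ m)
    have hb2 : |σ * (1 / m : ℝ)| ≤ 1 := by
      rw [abs_mul, hσ, one_mul]
      exact abs_inv_le m
    rw [pow_succ, ih (by omega), hA_mul h0 hm hb hb1 hb2 hs]
    congr 2
    funext n
    congr 2
    push_cast
    ring

theorem ZC : T_ZC := by
  intro m h hm1 h0 h1 hm hb s hs
  have hmR : (m : ℝ) ≠ 0 := by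
    have : (0 : ℝ) < m := by exact_mod_cast hm1
    exact this.ne'
  constructor
  · have key := hA_pow h0 h1 hm hb m hm1 1 (by simp) hs m le_rfl
    rw [one_mul, one_mul, div_self hmR, hA_one h0, hA_LSeries] at key
    exact key
  · have key := hA_pow h0 h1 hm hb m hm1 (-1) (by simp) hs m le_rfl
    rw [neg_one_mul, neg_one_mul, div_self hmR, hA_LSeries] at key
    rw [key, ← hA_one h0, hA_mul h0 hm hb (by simp) (by simp) hs, neg_add_cancel, hA_zero h0 h1]

end Pool.Agent.H34.MZ
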